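import Pool.Agent.X144.ShellCount

set_option autoImplicit false

/-!
# Almost all pure complexes with fixed facet size are shellable

Full answer to Q1 of MP_87030c_co (the statement is true for every `d`). The definitions
`IsShelling` and `IsShellable` are in `Pool/Agent/X144/ShellDet.lean`, `prob` is in
`Pool/Agent/X144/ShellCount.lean`.
-/

namespace Pool.Agent.Results.MP_87030c_co.AlmostAllShellable

open Filter Topology Pool.Agent.X144.Shell

/-- For every fixed `d ≥ 1` the probability that a uniformly random collection of `d`-subsets of an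
`m`-element set is (the facet set of) a shellable complex tends to `1` as `m → ∞`; more precisely it
is at least `1 - d m^d (1 - 2^(-d))^(m-d)`. -/
theorem result (d : ℕ) (hd : 1 ≤ d) :
    Tendsto (fun m : ℕ => prob d m) atTop (𝓝 1) ∧
    ∀ m : ℕ, d ≤ m → 1 - d * (m : ℝ) ^ d * (1 - (1 / 2) ^ d) ^ (m - d) ≤ prob d m :=
  ⟨prob_tendsto hd, fun _ hm => (prob_ge hd hm).1⟩

end Pool.Agent.Results.MP_87030c_co.AlmostAllShellable
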